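import Mathlib.Analysis.SpecialFunctions.Pow.Real

/-!
Definitions for the two-step Weibull step-stress model with Type-I censoring.
The failure times are `t 0 < ... < t (n₁ + n₂ - 1)`; the first `n₁` of them lie in `(0, τ]`.
-/

set_option autoImplicit false

namespace Pool.Agent.MP_1bbe3d_pr

open Finset

/-- `u(s) = τ + β (s - τ)`. -/
def u (τ β s : ℝ) : ℝ := τ + β * (s - τ)

/-- The quantity `Q(α, β)`. -/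
noncomputable def Q (n n₁ n₂ : ℕ) (τ η : ℝ) (t : Fin (n₁ + n₂) → ℝ) (α β : ℝ) : ℝ :=
  (∑ i : Fin (n₁ + n₂) with i.val < n₁, t i ^ α)
    + (∑ i : Fin (n₁ + n₂) with n₁ ≤ i.val, u τ β (t i) ^ α)
    + ((n : ℝ) - ((n₁ : ℝ) + n₂)) * u τ β η ^ α

/-- The log-likelihood `l(α, θ, β)`. -/
noncomputable def logLik (n n₁ n₂ : ℕ) (τ η : ℝ) (t : Fin (n₁ + n₂) → ℝ) (α θ β : ℝ) : ℝ :=
  ((n₁ : ℝ) + n₂) * Real.log α + n₂ * Real.log β - ((n₁ : ℝ) + n₂) * α * Real.log θ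
    + (α - 1) * ((∑ i : Fin (n₁ + n₂) with i.val < n₁, Real.log (t i))
      + ∑ i : Fin (n₁ + n₂) with n₁ ≤ i.val, Real.log (u τ β (t i)))
    - θ ^ (-α) * Q n n₁ n₂ τ η t α β

/-- The data `0 < t₁ < ... < t_{n₁} ≤ τ < t_{n₁+1} < ... < t_m ≤ η` with `m = n₁ + n₂ ≤ n`. -/
def Admissible (n n₁ n₂ : ℕ) (τ η : ℝ) (t : Fin (n₁ + n₂) → ℝ) : Prop :=
  n₁ + n₂ ≤ n ∧ StrictMono t ∧
    (∀ i : Fin (n₁ + n₂), i.val < n₁ → 0 < t i ∧ t i ≤ τ) ∧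
    (∀ i : Fin (n₁ + n₂), n₁ ≤ i.val → τ < t i ∧ t i ≤ η)

/-- The log-likelihood attains its supremum at a point of `(0, ∞)³`. -/
def MLEExists (n n₁ n₂ : ℕ) (τ η : ℝ) (t : Fin (n₁ + n₂) → ℝ) : Prop :=
  ∃ α θ β : ℝ, 0 < α ∧ 0 < θ ∧ 0 < β ∧
    ∀ α' θ' β' : ℝ, 0 < α' → 0 < θ' → 0 < β' →
      logLik n n₁ n₂ τ η t α' θ' β' ≤ logLik n n₁ n₂ τ η t α θ β

end Pool.Agent.MP_1bbe3d_pr
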