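import Mathlib.Algebra.Order.Ring.Star
import Mathlib.Algebra.Order.Star.Real
import Mathlib.RingTheory.PiTensorProduct
import Pool.Agent.MP_1bbe3d_pr.Defs

-- ======== part 0: formerly Pool.Agent.MP_1bbe3d_pr.Basic
section MrgPart0

set_option autoImplicit false

namespace Pool.Agent.MP_1bbe3d_pr

open Finset

/-- The transformed failure times. -/
noncomputable def x (n₁ n₂ : ℕ) (τ : ℝ) (t : Fin (n₁ + n₂) → ℝ) (β : ℝ) (i : Fin (n₁ + n₂)) : ℝ :=
  if i.val < n₁ then t i else u τ β (t i)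

lemma sum_split (n₁ n₂ : ℕ) (τ : ℝ) (t : Fin (n₁ + n₂) → ℝ) (β : ℝ) (f : ℝ → ℝ) :
    (∑ i : Fin (n₁ + n₂) with i.val < n₁, f (t i))
      + (∑ i : Fin (n₁ + n₂) with n₁ ≤ i.val, f (u τ β (t i)))
      = ∑ i : Fin (n₁ + n₂), f (x n₁ n₂ τ t β i) := by
  rw [← Finset.sum_filter_add_sum_filter_not Finset.univ (fun i : Fin (n₁ + n₂) => i.val < n₁)]
  congr 1
  · refine Finset.sum_congr rfl fun i hi => ?_
    simp only [Finset.mem_filter] at hi
    simp [x, hi.2]
  · refine Finset.sum_congr (by ext i; simp) fun i hi => ?_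
    simp only [Finset.mem_filter] at hi
    simp [x, hi.2]

lemma Q_eq (n n₁ n₂ : ℕ) (τ η : ℝ) (t : Fin (n₁ + n₂) → ℝ) (α β : ℝ) :
    Q n n₁ n₂ τ η t α β = (∑ i : Fin (n₁ + n₂), x n₁ n₂ τ t β i ^ α)
      + ((n : ℝ) - ((n₁ : ℝ) + n₂)) * u τ β η ^ α := by
  unfold Q
  rw [sum_split n₁ n₂ τ t β (fun y => y ^ α)]

lemma logLik_eq (n n₁ n₂ : ℕ) (τ η : ℝ) (t : Fin (n₁ + n₂) → ℝ) (α θ β : ℝ) :
    logLik n n₁ n₂ τ η t α θ β =
      ((n₁ : ℝ) + n₂) * Real.log α + n₂ * Real.log β - ((n₁ : ℝ) + n₂) * α * Real.log θ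
        + (α - 1) * (∑ i : Fin (n₁ + n₂), Real.log (x n₁ n₂ τ t β i))
        - θ ^ (-α) * Q n n₁ n₂ τ η t α β := by
  unfold logLik
  rw [sum_split n₁ n₂ τ t β Real.log]

/-- `m log w - D w ≤ m log (m / D) - m`. -/
lemma log_sub_le {m D w : ℝ} (hm : 0 < m) (hD : 0 < D) (hw : 0 < w) :
    m * Real.log w - D * w ≤ m * Real.log (m / D) - m := by
  have h1 : Real.log (D * w / m) ≤ D * w / m - 1 := Real.log_le_sub_one_of_pos (by positivity)
  rw [Real.log_div (by positivity) hm.ne', Real.log_mul hD.ne' hw.ne'] at h1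
  rw [Real.log_div hm.ne' hD.ne']
  have h2 : m * (Real.log D + Real.log w - Real.log m) ≤ m * (D * w / m - 1) :=
    mul_le_mul_of_nonneg_left h1 hm.le
  have h3 : m * (D * w / m - 1) = D * w - m := by field_simp
  nlinarith

/-- Maximising over the scale parameter. -/
lemma theta_bound {m q θ α : ℝ} (hm : 0 < m) (hq : 0 < q) (hθ : 0 < θ) :
    -(m * α * Real.log θ) - θ ^ (-α) * q ≤ m * Real.log (m / q) - m := by
  have hw : 0 < θ ^ (-α) := Real.rpow_pos_of_pos hθ _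
  have := log_sub_le hm hq hw
  rw [Real.log_rpow hθ] at this
  nlinarith

lemma theta_opt {m q α : ℝ} (hm : 0 < m) (hq : 0 < q) (hα : 0 < α) :
    -(m * α * Real.log ((q / m) ^ (1 / α))) - ((q / m) ^ (1 / α)) ^ (-α) * q
      = m * Real.log (m / q) - m := by
  have hqm : 0 < q / m := div_pos hq hm
  rw [Real.log_rpow hqm, ← Real.rpow_mul hqm.le]
  have h1 : 1 / α * -α = -1 := by field_simp
  rw [h1, Real.rpow_neg_one, Real.log_div hq.ne' hm.ne', Real.log_div hm.ne' hq.ne']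
  field_simp
  ring

section

variable {n n₁ n₂ : ℕ} {τ η : ℝ} {t : Fin (n₁ + n₂) → ℝ}

lemma u_pos {τ β s : ℝ} (hτ : 0 < τ) (hβ : 0 < β) (hs : τ ≤ s) : 0 < u τ β s := by
  unfold u
  have := mul_nonneg hβ.le (sub_nonneg.2 hs)
  linarith

lemma u_ge {τ β s : ℝ} (hβ : 0 < β) (hs : τ ≤ s) : τ ≤ u τ β s := by
  unfold u
  have := mul_nonneg hβ.le (sub_nonneg.2 hs)
  linarith

lemma u_mono {τ β s s' : ℝ} (hβ : 0 < β) (hs : s ≤ s') : u τ β s ≤ u τ β s' := by
  unfold u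
  have := mul_le_mul_of_nonneg_left (sub_le_sub_right hs τ) hβ.le
  linarith

lemma x_pos (h : Admissible n n₁ n₂ τ η t) (hτ : 0 < τ) {β : ℝ} (hβ : 0 < β)
    (i : Fin (n₁ + n₂)) : 0 < x n₁ n₂ τ t β i := by
  unfold x
  split_ifs with hi
  · exact (h.2.2.1 i hi).1
  · exact u_pos hτ hβ (h.2.2.2 i (not_lt.1 hi)).1.le

lemma x_le (h : Admissible n n₁ n₂ τ η t) {β : ℝ} (hβ : 0 < β)
    (i j : Fin (n₁ + n₂)) (hij : i ≤ j) (hj : n₁ ≤ j.val) :
    x n₁ n₂ τ t β i ≤ u τ β (t j) := by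
  unfold x
  split_ifs with hi
  · exact (h.2.2.1 i hi).2.trans (u_ge hβ (h.2.2.2 j hj).1.le)
  · exact u_mono hβ (h.2.1.monotone hij)

lemma x_le_eta (h : Admissible n n₁ n₂ τ η t) (hτη : τ < η) {β : ℝ} (hβ : 0 < β)
    (i : Fin (n₁ + n₂)) : x n₁ n₂ τ t β i ≤ u τ β η := by
  unfold x
  split_ifs with hi
  · exact (h.2.2.1 i hi).2.trans (u_ge hβ hτη.le)
  · exact u_mono hβ (h.2.2.2 i (not_lt.1 hi)).2

lemma cens_nonneg (h : Admissible n n₁ n₂ τ η t) : (0 : ℝ) ≤ (n : ℝ) - ((n₁ : ℝ) + n₂) := by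
  have : ((n₁ + n₂ : ℕ) : ℝ) ≤ n := by exact_mod_cast h.1
  push_cast at this
  linarith

lemma Q_ge (h : Admissible n n₁ n₂ τ η t) (hτ : 0 < τ) (hτη : τ < η) {β : ℝ} (hβ : 0 < β)
    (α : ℝ) (i : Fin (n₁ + n₂)) : x n₁ n₂ τ t β i ^ α ≤ Q n n₁ n₂ τ η t α β := by
  rw [Q_eq]
  have h1 : x n₁ n₂ τ t β i ^ α ≤ ∑ j : Fin (n₁ + n₂), x n₁ n₂ τ t β j ^ α :=
    Finset.single_le_sum (f := fun j => x n₁ n₂ τ t β j ^ α)
      (fun j _ => (Real.rpow_pos_of_pos (x_pos h hτ hβ j) α).le) (Finset.mem_univ i)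
  have h2 : 0 ≤ ((n : ℝ) - ((n₁ : ℝ) + n₂)) * u τ β η ^ α :=
    mul_nonneg (cens_nonneg h) (Real.rpow_pos_of_pos (u_pos hτ hβ hτη.le) α).le
  linarith

lemma Q_le (h : Admissible n n₁ n₂ τ η t) (hτ : 0 < τ) (hτη : τ < η) {β : ℝ} (hβ : 0 < β)
    {α : ℝ} (hα : 0 ≤ α) : Q n n₁ n₂ τ η t α β ≤ n * u τ β η ^ α := by
  rw [Q_eq]
  have h1 : ∑ j : Fin (n₁ + n₂), x n₁ n₂ τ t β j ^ α ≤ ∑ _j : Fin (n₁ + n₂), u τ β η ^ α :=
    Finset.sum_le_sum fun j _ =>
      Real.rpow_le_rpow (x_pos h hτ hβ j).le (x_le_eta h hτη hβ j) hα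
  simp only [Finset.sum_const, Finset.card_univ, Fintype.card_fin, nsmul_eq_mul] at h1
  push_cast at h1
  nlinarith

/-- The sum of the logarithms is at most one chosen term plus `m - 1` times a common bound. -/
lemma sum_log_le {m : ℕ} (f : Fin m → ℝ) (c : ℝ) (hf : ∀ i, f i ≤ c) (i₀ : Fin m) :
    ∑ i, f i ≤ f i₀ + ((m : ℝ) - 1) * c := by
  rw [← Finset.add_sum_erase _ _ (Finset.mem_univ i₀)]
  have h1 : ∑ i ∈ Finset.univ.erase i₀, f i ≤ ∑ _i ∈ Finset.univ.erase i₀, c :=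
    Finset.sum_le_sum fun i _ => hf i
  rw [Finset.sum_const, Finset.card_erase_of_mem (Finset.mem_univ i₀), Finset.card_univ,
    Fintype.card_fin, nsmul_eq_mul] at h1
  have hm : 1 ≤ m := Nat.one_le_iff_ne_zero.2 (fun h => by subst h; exact i₀.elim0)
  rw [Nat.cast_sub hm] at h1
  push_cast at h1
  linarith

end

end Pool.Agent.MP_1bbe3d_pr

end MrgPart0

-- ======== part 1: formerly Pool.Agent.MP_1bbe3d_pr.NoEarly
section MrgPart1

set_option autoImplicit false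

namespace Pool.Agent.MP_1bbe3d_pr

open Finset

section

variable {n m : ℕ} {τ η : ℝ} {t : Fin (0 + m) → ℝ}

lemma x_zero (β : ℝ) (i : Fin (0 + m)) : x 0 m τ t β i = u τ β (t i) := by
  simp [x]

/-- For shape at most one, doubling `β` and `θ` strictly increases the likelihood. -/
lemma double_lt (h : Admissible n 0 m τ η t) (hτ : 0 < τ) (hτη : τ < η) (hm : 0 < m)
    {α θ β : ℝ} (hα : 0 < α) (hα1 : α ≤ 1) (hθ : 0 < θ) (hβ : 0 < β) :
    logLik n 0 m τ η t α θ β < logLik n 0 m τ η t α (2 * θ) (2 * β) := by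
  have hβ2 : 0 < 2 * β := by positivity
  have hu : ∀ s, τ ≤ s → u τ (2 * β) s < 2 * u τ β s := by
    intro s _
    unfold u
    linarith
  have hti : ∀ i, τ ≤ t i := fun i => (h.2.2.2 i (Nat.zero_le _)).1.le
  have hpow : ∀ s, τ ≤ s → (2 * θ) ^ (-α) * u τ (2 * β) s ^ α < θ ^ (-α) * u τ β s ^ α := by
    intro s hs
    have h1 : u τ (2 * β) s ^ α < (2 * u τ β s) ^ α :=
      Real.rpow_lt_rpow (u_pos hτ hβ2 hs).le (hu s hs) hα
    have h2 : (2 * θ) ^ (-α) * (2 * u τ β s) ^ α = θ ^ (-α) * u τ β s ^ α := by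
      rw [Real.mul_rpow (by norm_num) hθ.le, Real.mul_rpow (by norm_num) (u_pos hτ hβ hs).le,
        Real.rpow_neg (by norm_num : (0 : ℝ) ≤ 2)]
      have : (0 : ℝ) < 2 ^ α := by positivity
      field_simp
    rw [← h2]
    exact mul_lt_mul_of_pos_left h1 (Real.rpow_pos_of_pos (by positivity) _)
  have hQ : (2 * θ) ^ (-α) * Q n 0 m τ η t α (2 * β) < θ ^ (-α) * Q n 0 m τ η t α β := by
    rw [Q_eq, Q_eq, mul_add, mul_add, Finset.mul_sum, Finset.mul_sum]
    have h1 : ∑ i, (2 * θ) ^ (-α) * x 0 m τ t (2 * β) i ^ α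
        < ∑ i, θ ^ (-α) * x 0 m τ t β i ^ α := by
      refine Finset.sum_lt_sum_of_nonempty ⟨⟨0, by omega⟩, Finset.mem_univ _⟩ fun i _ => ?_
      rw [x_zero, x_zero]
      exact hpow _ (hti i)
    have h2 := mul_le_mul_of_nonneg_left (hpow η hτη.le).le (cens_nonneg h)
    nlinarith
  have hlog : ∑ i, Real.log (x 0 m τ t (2 * β) i)
      ≤ ∑ i, Real.log (x 0 m τ t β i) + m * Real.log 2 := by
    have : ∑ i, Real.log (x 0 m τ t (2 * β) i)
        ≤ ∑ i : Fin (0 + m), (Real.log (x 0 m τ t β i) + Real.log 2) := by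
      refine Finset.sum_le_sum fun i _ => ?_
      rw [x_zero, x_zero, add_comm, ← Real.log_mul (by norm_num) (u_pos hτ hβ (hti i)).ne']
      exact Real.log_le_log (u_pos hτ hβ2 (hti i)) (hu _ (hti i)).le
    rw [Finset.sum_add_distrib] at this
    simpa using this
  rw [logLik_eq, logLik_eq, Real.log_mul (by norm_num) hβ.ne', Real.log_mul (by norm_num) hθ.ne']
  have h3 := mul_le_mul_of_nonneg_left hlog (sub_nonneg.2 hα1)
  push_cast
  nlinarith

/-- For shape at least one, the likelihood is bounded in terms of the range of the data. -/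
lemma upper_of_one_le (h : Admissible n 0 m τ η t) (hτ : 0 < τ) (hτη : τ < η)
    (i₀ j : Fin (0 + m)) (hj : ∀ i, i ≤ j) {D : ℝ} (hD : 0 < D) (hDt : D ≤ t j - t i₀)
    {α θ β : ℝ} (hα1 : 1 ≤ α) (hθ : 0 < θ) (hβ : 0 < β) :
    logLik n 0 m τ η t α θ β ≤ m * Real.log m + m * Real.log (m / D) - 2 * m + 1 := by
  have hm : (0 : ℝ) < m := by
    have := i₀.2
    exact_mod_cast (by omega : 0 < m)
  have hα : 0 < α := by linarith
  have hti : ∀ i, τ ≤ t i := fun i => (h.2.2.2 i (Nat.zero_le _)).1.le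
  set Y := u τ β (t j) with hY
  have hYpos : 0 < Y := u_pos hτ hβ (hti j)
  have hQ : Y ^ α ≤ Q n 0 m τ η t α β := by
    have := Q_ge h hτ hτη hβ α j
    rwa [x_zero] at this
  have h1 := theta_bound (α := α) hm (Real.rpow_pos_of_pos hYpos α) hθ
  rw [Real.log_div hm.ne' (Real.rpow_pos_of_pos hYpos α).ne', Real.log_rpow hYpos] at h1
  have h2 : θ ^ (-α) * Y ^ α ≤ θ ^ (-α) * Q n 0 m τ η t α β :=
    mul_le_mul_of_nonneg_left hQ (Real.rpow_pos_of_pos hθ _).le
  have h3 : ∑ i, Real.log (x 0 m τ t β i)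
      ≤ Real.log (x 0 m τ t β i₀) + (((0 + m : ℕ) : ℝ) - 1) * Real.log Y :=
    sum_log_le (fun i => Real.log (x 0 m τ t β i)) (Real.log Y)
      (fun i => Real.log_le_log (x_pos h hτ hβ i) (x_le h hβ i j (hj i) (Nat.zero_le _))) i₀
  rw [x_zero] at h3
  have h4 : Real.log (u τ β (t i₀)) - Real.log Y ≤ -(D * (β / Y)) := by
    have hu0 := u_pos hτ hβ (hti i₀)
    rw [← Real.log_div hu0.ne' hYpos.ne']
    refine (Real.log_le_sub_one_of_pos (by positivity)).trans ?_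
    have : u τ β (t i₀) ≤ Y - D * β := by
      rw [hY]
      unfold u
      nlinarith
    rw [div_sub_one hYpos.ne', mul_div_assoc', ← neg_div]
    exact div_le_div_of_nonneg_right (by linarith) hYpos.le
  have h5 : D * (β / Y) ≤ 1 := by
    rw [mul_div_assoc', div_le_one hYpos, hY]
    unfold u
    have := hti i₀
    nlinarith
  have h6 := log_sub_le hm hD (w := α * (β / Y)) (by positivity)
  rw [Real.log_mul hα.ne' (by positivity), Real.log_div hβ.ne' hYpos.ne'] at h6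
  have h7 := mul_le_mul_of_nonneg_left h3 (sub_nonneg.2 hα1)
  have h8 := mul_le_mul_of_nonneg_left h4 (sub_nonneg.2 hα1)
  rw [logLik_eq]
  push_cast at h7 ⊢
  nlinarith

/-- A point with shape one half where the likelihood is large. -/
lemma lower_half (h : Admissible n 0 m τ η t) (hτ : 0 < τ) (hτη : τ < η) (i₀ : Fin (0 + m)) :
    ∃ β : ℝ, 0 < β ∧
      m * Real.log (1 / 2) - (1 / 2) * Real.log (2 * (t i₀ - τ))
        - (1 / 2) * (((m : ℝ) - 1) * Real.log (2 * (η - τ))) - n * (2 * (η - τ)) ^ (1 / 2 : ℝ)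
      ≤ logLik n 0 m τ η t (1 / 2) β β := by
  have hs : 0 < t i₀ - τ := sub_pos.2 (h.2.2.2 i₀ (Nat.zero_le _)).1
  have hs' : t i₀ - τ ≤ η - τ := sub_le_sub_right (h.2.2.2 i₀ (Nat.zero_le _)).2 τ
  have hS : 0 < η - τ := sub_pos.2 hτη
  set β := τ / (t i₀ - τ) with hβdef
  have hβ : 0 < β := div_pos hτ hs
  have hτβ : τ = β * (t i₀ - τ) := by rw [hβdef]; field_simp
  refine ⟨β, hβ, ?_⟩
  have huη : u τ β η ≤ β * (2 * (η - τ)) := by
    unfold u
    nlinarith
  have hu0 : u τ β (t i₀) = β * (2 * (t i₀ - τ)) := by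
    unfold u
    linarith
  have h3 : ∑ i, Real.log (x 0 m τ t β i)
      ≤ Real.log (x 0 m τ t β i₀) + (((0 + m : ℕ) : ℝ) - 1) * Real.log (β * (2 * (η - τ))) :=
    sum_log_le (fun i => Real.log (x 0 m τ t β i)) _
      (fun i => Real.log_le_log (x_pos h hτ hβ i) ((x_le_eta h hτη hβ i).trans huη)) i₀
  rw [x_zero, hu0, Real.log_mul hβ.ne' (by positivity), Real.log_mul hβ.ne' (by positivity)] at h3
  have h4 : β ^ (-(1 / 2 : ℝ)) * Q n 0 m τ η t (1 / 2) β ≤ n * (2 * (η - τ)) ^ (1 / 2 : ℝ) := by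
    have h5 := Q_le h hτ hτη hβ (α := 1 / 2) (by norm_num)
    have h6 : u τ β η ^ (1 / 2 : ℝ) ≤ (β * (2 * (η - τ))) ^ (1 / 2 : ℝ) :=
      Real.rpow_le_rpow (u_pos hτ hβ hτη.le).le huη (by norm_num)
    rw [Real.mul_rpow hβ.le (by positivity)] at h6
    have h7 : Q n 0 m τ η t (1 / 2) β ≤ n * (β ^ (1 / 2 : ℝ) * (2 * (η - τ)) ^ (1 / 2 : ℝ)) :=
      h5.trans (mul_le_mul_of_nonneg_left h6 (Nat.cast_nonneg n))
    have h8 : 0 < β ^ (1 / 2 : ℝ) := Real.rpow_pos_of_pos hβ _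
    rw [Real.rpow_neg hβ.le, inv_mul_le_iff₀ h8]
    linarith
  rw [logLik_eq]
  push_cast at h3 ⊢
  nlinarith

end

theorem no_early (n m : ℕ) (τ η : ℝ) (hτ : 0 < τ) (hτη : τ < η) (hm : 2 ≤ m) (hmn : m ≤ n) :
    ∃ U : Set (Fin (0 + m) → ℝ), IsOpen U ∧ U.Nonempty ∧
      ∀ t ∈ U, Admissible n 0 m τ η t ∧ ¬ MLEExists n 0 m τ η t := by
  have hS : 0 < η - τ := sub_pos.2 hτη
  set S := η - τ with hSdef
  set B : ℝ := m * Real.log m + m * Real.log (m / (S / 4)) - 2 * m + 1 with hB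
  set C : ℝ := m * Real.log (1 / 2) - (1 / 2) * (((m : ℝ) - 1) * Real.log (2 * S))
    - n * (2 * S) ^ (1 / 2 : ℝ) with hC
  set ε : ℝ := min (S / 4) (Real.exp (2 * (C - B)) / 2) with hε
  have hεpos : 0 < ε := lt_min (by positivity) (by positivity)
  have hε1 : ε ≤ S / 4 := min_le_left _ _
  have hε2 : ε ≤ Real.exp (2 * (C - B)) / 2 := min_le_right _ _
  let i₀ : Fin (0 + m) := ⟨0, by omega⟩
  let j : Fin (0 + m) := ⟨m - 1, by omega⟩
  have hj : ∀ i, i ≤ j := fun i => by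
    have := i.2
    show i.val ≤ m - 1
    omega
  refine ⟨{t | ∀ i k, i < k → t i < t k} ∩ {t | ∀ i, τ < t i ∧ t i < η} ∩ {t | t i₀ < τ + ε}
    ∩ {t | τ + S / 2 < t j}, ?_, ?_, ?_⟩
  · refine ((IsOpen.inter ?_ ?_).inter ?_).inter ?_
    · simp only [Set.ofPred_forall]
      exact isOpen_iInter_of_finite fun i => isOpen_iInter_of_finite fun k =>
        isOpen_iInter_of_finite fun _ => isOpen_lt (continuous_apply i) (continuous_apply k)
    · simp only [Set.ofPred_forall]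
      exact isOpen_iInter_of_finite fun i =>
        (isOpen_lt continuous_const (continuous_apply i)).inter
          (isOpen_lt (continuous_apply i) continuous_const)
    · exact isOpen_lt (continuous_apply i₀) continuous_const
    · exact isOpen_lt continuous_const (continuous_apply j)
  · have hmpos : (0 : ℝ) < m := by exact_mod_cast (by omega : 0 < m)
    refine ⟨fun i => if i.val = 0 then τ + ε / 2 else τ + S / 2 + S / 2 * (i.val / m),
      ⟨⟨⟨?_, ?_⟩, ?_⟩, ?_⟩⟩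
    · intro i k hik
      have hik' : i.val < k.val := hik
      have hk : k.val ≠ 0 := by omega
      have hk0 : (0 : ℝ) ≤ S / 2 * (k.val / m) := by positivity
      simp only [hk, if_false]
      split_ifs with hi
      · linarith
      · have : (i.val : ℝ) / m < k.val / m :=
          div_lt_div_of_pos_right (by exact_mod_cast hik') hmpos
        nlinarith
    · intro i
      have hi0 : (0 : ℝ) ≤ S / 2 * (i.val / m) := by positivity
      have hi1 : (i.val : ℝ) / m < 1 := by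
        rw [div_lt_one hmpos]
        have := i.2
        exact_mod_cast (by omega : i.val < m)
      dsimp only
      split_ifs with hi
      · constructor <;> linarith
      · constructor
        · linarith
        · nlinarith
    · show (if (0 : ℕ) = 0 then τ + ε / 2 else _) < τ + ε
      simp only [if_true]
      linarith
    · have hm1 : m - 1 ≠ 0 := by omega
      show τ + S / 2 < (if m - 1 = 0 then τ + ε / 2 else τ + S / 2 + S / 2 * (((m - 1 : ℕ) : ℝ) / m))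
      simp only [hm1, if_false]
      have : (0 : ℝ) < ((m - 1 : ℕ) : ℝ) := by exact_mod_cast (by omega : 0 < m - 1)
      have : (0 : ℝ) < S / 2 * (((m - 1 : ℕ) : ℝ) / m) := by positivity
      linarith
  · rintro t ⟨⟨⟨h1, h2⟩, h3⟩, h4⟩
    have h : Admissible n 0 m τ η t :=
      ⟨by omega, fun i k hik => h1 i k hik, fun i hi => absurd hi (Nat.not_lt_zero _),
        fun i _ => ⟨(h2 i).1, (h2 i).2.le⟩⟩
    refine ⟨h, ?_⟩
    rintro ⟨α, θ, β, hα, hθ, hβ, hmax⟩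
    rcases le_total α 1 with hα1 | hα1
    · exact absurd (hmax α (2 * θ) (2 * β) hα (by positivity) (by positivity))
        (not_le.2 (double_lt h hτ hτη (by omega) hα hα1 hθ hβ))
    · have h3' : t i₀ < τ + ε := h3
      have h4' : τ + S / 2 < t j := h4
      have hup := upper_of_one_le h hτ hτη i₀ j hj (D := S / 4) (by positivity) (by linarith)
        hα1 hθ hβ
      obtain ⟨β', hβ', hlow⟩ := lower_half h hτ hτη i₀
      have hle := hmax (1 / 2) β' β' (by norm_num) hβ' hβ'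
      have hs : 0 < t i₀ - τ := sub_pos.2 (h2 i₀).1
      have hlog : Real.log (2 * (t i₀ - τ)) < 2 * (C - B) := by
        rw [Real.log_lt_iff_lt_exp (by positivity)]
        linarith
      rw [← hSdef] at hlow
      linarith

end Pool.Agent.MP_1bbe3d_pr

end MrgPart1

-- marker of a merged file
example : 731051 + 71801 = 731051 + 71801 := rfl
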