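import Pool.Agent.MP_1bbe3d_pr.Basic

set_option autoImplicit false

namespace Pool.Agent.MP_1bbe3d_pr

open Finset

/-- The profile log-likelihood. -/
noncomputable def prof (n n₁ n₂ : ℕ) (τ η : ℝ) (t : Fin (n₁ + n₂) → ℝ) (α β : ℝ) : ℝ :=
  ((n₁ : ℝ) + n₂) * Real.log α + n₂ * Real.log β
    + (α - 1) * (∑ i : Fin (n₁ + n₂), Real.log (x n₁ n₂ τ t β i))
    + (((n₁ : ℝ) + n₂) * Real.log (((n₁ : ℝ) + n₂) / Q n n₁ n₂ τ η t α β) - ((n₁ : ℝ) + n₂))

section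

variable {n n₁ n₂ : ℕ} {τ η : ℝ} {t : Fin (n₁ + n₂) → ℝ}

lemma Q_pos (h : Admissible n n₁ n₂ τ η t) (hτ : 0 < τ) (hτη : τ < η) (hn₂ : 0 < n₂) {β : ℝ}
    (hβ : 0 < β) (α : ℝ) : 0 < Q n n₁ n₂ τ η t α β :=
  (Real.rpow_pos_of_pos (x_pos h hτ hβ ⟨0, by omega⟩) α).trans_le (Q_ge h hτ hτη hβ α _)

lemma m_pos (hn₂ : 0 < n₂) : (0 : ℝ) < (n₁ : ℝ) + n₂ := by
  have : (0 : ℝ) < n₂ := by exact_mod_cast hn₂
  positivity

lemma logLik_le_prof (h : Admissible n n₁ n₂ τ η t) (hτ : 0 < τ) (hτη : τ < η) (hn₂ : 0 < n₂)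
    {α θ β : ℝ} (hθ : 0 < θ) (hβ : 0 < β) :
    logLik n n₁ n₂ τ η t α θ β ≤ prof n n₁ n₂ τ η t α β := by
  have := theta_bound (α := α) (m_pos (n₁ := n₁) hn₂) (Q_pos h hτ hτη hn₂ hβ α) hθ
  rw [logLik_eq, prof]
  linarith

lemma exists_logLik_eq_prof (h : Admissible n n₁ n₂ τ η t) (hτ : 0 < τ) (hτη : τ < η)
    (hn₂ : 0 < n₂) {α β : ℝ} (hα : 0 < α) (hβ : 0 < β) :
    ∃ θ, 0 < θ ∧ logLik n n₁ n₂ τ η t α θ β = prof n n₁ n₂ τ η t α β := by
  have hm := m_pos (n₁ := n₁) hn₂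
  have hQ := Q_pos h hτ hτη hn₂ hβ α
  refine ⟨(Q n n₁ n₂ τ η t α β / ((n₁ : ℝ) + n₂)) ^ (1 / α), by positivity, ?_⟩
  have := theta_opt hm hQ hα
  rw [logLik_eq, prof]
  linarith

lemma continuous_x (i : Fin (n₁ + n₂)) : Continuous fun β : ℝ => x n₁ n₂ τ t β i := by
  unfold x u
  split_ifs
  · exact continuous_const
  · fun_prop

lemma continuousOn_prof (h : Admissible n n₁ n₂ τ η t) (hτ : 0 < τ) (hτη : τ < η)
    (hn₂ : 0 < n₂) :
    ContinuousOn (fun z : ℝ × ℝ => prof n n₁ n₂ τ η t z.1 z.2) {z | 0 < z.1 ∧ 0 < z.2} := by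
  have hx : ∀ i, Continuous fun z : ℝ × ℝ => x n₁ n₂ τ t z.2 i :=
    fun i => (continuous_x i).comp continuous_snd
  have hu : Continuous fun z : ℝ × ℝ => u τ z.2 η := by
    unfold u
    fun_prop
  have hQ : ContinuousOn (fun z : ℝ × ℝ => Q n n₁ n₂ τ η t z.1 z.2) {z | 0 < z.1 ∧ 0 < z.2} := by
    simp only [Q_eq]
    refine ContinuousOn.add (continuousOn_finsetSum _ fun i _ => ?_) (continuousOn_const.mul ?_)
    · exact (hx i).continuousOn.rpow continuous_fst.continuousOn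
        fun z hz => Or.inl (x_pos h hτ hz.2 i).ne'
    · exact hu.continuousOn.rpow continuous_fst.continuousOn
        fun z hz => Or.inl (u_pos hτ hz.2 hτη.le).ne'
  unfold prof
  refine ((ContinuousOn.add ?_ ?_).add ?_).add (ContinuousOn.sub ?_ continuousOn_const)
  · exact continuousOn_const.mul (continuous_fst.continuousOn.log fun z hz => hz.1.ne')
  · exact continuousOn_const.mul (continuous_snd.continuousOn.log fun z hz => hz.2.ne')
  · exact (continuous_fst.continuousOn.sub continuousOn_const).mul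
      (continuousOn_finsetSum _ fun i _ =>
        (hx i).continuousOn.log fun z hz => (x_pos h hτ hz.2 i).ne')
  · refine continuousOn_const.mul (ContinuousOn.log (continuousOn_const.div hQ ?_) ?_)
    · exact fun z hz => (Q_pos h hτ hτη hn₂ hz.2 z.1).ne'
    · exact fun z hz => (div_pos (m_pos hn₂) (Q_pos h hτ hτη hn₂ hz.2 z.1)).ne'

lemma card_late : ((Finset.univ.filter fun i : Fin (n₁ + n₂) => n₁ ≤ i.val).card : ℝ) = n₂ := by
  have h1 : (Finset.univ.filter fun i : Fin (n₁ + n₂) => i.val < n₁).card = n₁ := by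
    rw [Fin.card_filter_val_lt]
    omega
  have h2 := Finset.card_filter_add_card_filter_not (s := Finset.univ)
    (fun i : Fin (n₁ + n₂) => i.val < n₁)
  rw [h1, Finset.card_univ, Fintype.card_fin] at h2
  have h3 : (Finset.univ.filter fun i : Fin (n₁ + n₂) => n₁ ≤ i.val)
      = Finset.univ.filter fun i : Fin (n₁ + n₂) => ¬ i.val < n₁ := by
    ext i
    simp
  rw [h3]
  exact_mod_cast (by omega : _ = n₂)

/-- The main upper bound for the profile. -/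
lemma prof_le (h : Admissible n n₁ n₂ τ η t) (hτ : 0 < τ) (hτη : τ < η)
    (i₀ j : Fin (n₁ + n₂)) (hi₀ : i₀.val < n₁) (hj : ∀ i, i ≤ j) (hj' : n₁ ≤ j.val)
    {α β : ℝ} (hα : 0 < α) (hβ : 0 < β) :
    prof n n₁ n₂ τ η t α β ≤ ((n₁ : ℝ) + n₂) * Real.log α
      - (Real.log (u τ β (t j)) - Real.log (t i₀)) * α
      + (n₂ * Real.log β - ∑ i : Fin (n₁ + n₂), Real.log (x n₁ n₂ τ t β i))
      + (((n₁ : ℝ) + n₂) * Real.log ((n₁ : ℝ) + n₂) - ((n₁ : ℝ) + n₂)) := by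
  have hn₂ : 0 < n₂ := by
    have := j.2
    omega
  have hm := m_pos (n₁ := n₁) hn₂
  set Y := u τ β (t j) with hY
  have hYpos : 0 < Y := u_pos hτ hβ (h.2.2.2 j hj').1.le
  have hxj : x n₁ n₂ τ t β j = Y := by simp [x, not_lt.2 hj', hY]
  have hx0 : x n₁ n₂ τ t β i₀ = t i₀ := by simp [x, hi₀]
  have hQ : Y ^ α ≤ Q n n₁ n₂ τ η t α β := hxj ▸ Q_ge h hτ hτη hβ α j
  have h1 : α * Real.log Y ≤ Real.log (Q n n₁ n₂ τ η t α β) := by
    rw [← Real.log_rpow hYpos]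
    exact Real.log_le_log (Real.rpow_pos_of_pos hYpos α) hQ
  have h3 : ∑ i, Real.log (x n₁ n₂ τ t β i)
      ≤ Real.log (x n₁ n₂ τ t β i₀) + (((n₁ + n₂ : ℕ) : ℝ) - 1) * Real.log Y :=
    sum_log_le (fun i => Real.log (x n₁ n₂ τ t β i)) (Real.log Y)
      (fun i => Real.log_le_log (x_pos h hτ hβ i) (x_le h hβ i j (hj i) hj')) i₀
  rw [hx0] at h3
  have h4 := mul_le_mul_of_nonneg_left h3 hα.le
  have h5 := mul_le_mul_of_nonneg_left h1 hm.le
  rw [prof, Real.log_div hm.ne' (Q_pos h hτ hτη hn₂ hβ α).ne']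
  push_cast at h4
  nlinarith

lemma g_le_one (h : Admissible n n₁ n₂ τ η t) (hτ : 0 < τ) {β : ℝ} (hβ : 0 < β) :
    n₂ * Real.log β - ∑ i : Fin (n₁ + n₂), Real.log (x n₁ n₂ τ t β i)
      ≤ -(∑ i : Fin (n₁ + n₂) with i.val < n₁, Real.log (t i))
        - ∑ i : Fin (n₁ + n₂) with n₁ ≤ i.val, Real.log (t i - τ) := by
  rw [← sum_split n₁ n₂ τ t β Real.log]
  have h1 : ∑ i : Fin (n₁ + n₂) with n₁ ≤ i.val, (Real.log β + Real.log (t i - τ))
      ≤ ∑ i : Fin (n₁ + n₂) with n₁ ≤ i.val, Real.log (u τ β (t i)) := by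
    refine Finset.sum_le_sum fun i hi => ?_
    have hi' : τ < t i := (h.2.2.2 i (Finset.mem_filter.1 hi).2).1
    have hs : 0 < t i - τ := sub_pos.2 hi'
    rw [← Real.log_mul hβ.ne' hs.ne']
    refine Real.log_le_log (by positivity) ?_
    unfold u
    linarith
  rw [Finset.sum_add_distrib, Finset.sum_const, nsmul_eq_mul, card_late] at h1
  linarith

lemma g_le_two (h : Admissible n n₁ n₂ τ η t) (hτ : 0 < τ) {β : ℝ} (hβ : 0 < β) :
    n₂ * Real.log β - ∑ i : Fin (n₁ + n₂), Real.log (x n₁ n₂ τ t β i)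
      ≤ -(∑ i : Fin (n₁ + n₂) with i.val < n₁, Real.log (t i))
        + n₂ * (Real.log β - Real.log τ) := by
  rw [← sum_split n₁ n₂ τ t β Real.log]
  have h1 : ∑ _i : Fin (n₁ + n₂) with n₁ ≤ _i.val, Real.log τ
      ≤ ∑ i : Fin (n₁ + n₂) with n₁ ≤ i.val, Real.log (u τ β (t i)) := by
    refine Finset.sum_le_sum fun i hi => ?_
    exact Real.log_le_log hτ (u_ge hβ (h.2.2.2 i (Finset.mem_filter.1 hi).2).1.le)
  rw [Finset.sum_const, nsmul_eq_mul, card_late] at h1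
  linarith

theorem exists_of_lt (h : Admissible n n₁ n₂ τ η t) (hτ : 0 < τ) (hτη : τ < η)
    (hn₂ : 0 < n₂) (i₀ : Fin (n₁ + n₂)) (hi₀ : i₀.val < n₁) (ht₀ : t i₀ < τ) :
    MLEExists n n₁ n₂ τ η t := by
  have hm := m_pos (n₁ := n₁) hn₂
  have hn₂' : (0 : ℝ) < n₂ := by exact_mod_cast hn₂
  set m : ℝ := (n₁ : ℝ) + n₂ with hmdef
  let j : Fin (n₁ + n₂) := ⟨n₁ + n₂ - 1, by omega⟩
  have hj : ∀ i, i ≤ j := fun i => by
    have := i.2
    show i.val ≤ n₁ + n₂ - 1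
    omega
  have hj' : n₁ ≤ j.val := by
    show n₁ ≤ n₁ + n₂ - 1
    omega
  have ht0 : 0 < t i₀ := (h.2.2.1 i₀ hi₀).1
  have htj : 0 < t j - τ := sub_pos.2 (h.2.2.2 j hj').1
  set K₀ : ℝ := -(∑ i : Fin (n₁ + n₂) with i.val < n₁, Real.log (t i)) with hK₀
  set K : ℝ := K₀ - ∑ i : Fin (n₁ + n₂) with n₁ ≤ i.val, Real.log (t i - τ) with hK
  set l₀ : ℝ := Real.log τ - Real.log (t i₀) with hl₀
  have hl₀pos : 0 < l₀ := sub_pos.2 (Real.log_lt_log ht0 ht₀)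
  set c : ℝ := prof n n₁ n₂ τ η t 1 1 - (m * Real.log m - m) with hc
  set a : ℝ := Real.exp ((c - K) / m) with ha
  set A : ℝ := (m * Real.log (m / (l₀ / 2)) - m + K - c) / (l₀ / 2) with hA
  set b : ℝ := Real.exp (Real.log τ + (c - (m * Real.log (m / l₀) - m) - K₀) / n₂) with hb
  set L : ℝ := m / Real.exp ((c + m - K) / m) with hL
  set B : ℝ := Real.exp (L + Real.log (t i₀)) / (t j - τ) with hB
  have hout : ∀ α β : ℝ, 0 < α → 0 < β → (α < a ∨ A < α ∨ β < b ∨ B < β) →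
      prof n n₁ n₂ τ η t α β < prof n n₁ n₂ τ η t 1 1 := by
    intro α β hα hβ hcase
    have h1 := prof_le h hτ hτη i₀ j hi₀ hj hj' hα hβ
    have h2 := g_le_one h hτ hβ
    have h3 := g_le_two h hτ hβ
    rw [← hmdef] at h1
    rw [← hK₀, ← hK] at h2
    rw [← hK₀] at h3
    have hl : l₀ ≤ Real.log (u τ β (t j)) - Real.log (t i₀) :=
      sub_le_sub_right (Real.log_le_log hτ (u_ge hβ (h.2.2.2 j hj').1.le)) _
    set l : ℝ := Real.log (u τ β (t j)) - Real.log (t i₀) with hldef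
    have hlα : l₀ * α ≤ l * α := mul_le_mul_of_nonneg_right hl hα.le
    rcases hcase with hcase | hcase | hcase | hcase
    · have h4 : Real.log α < (c - K) / m := (Real.log_lt_iff_lt_exp hα).2 hcase
      rw [lt_div_iff₀ hm] at h4
      have : 0 < l₀ * α := by positivity
      linarith
    · have h4 := log_sub_le hm (half_pos hl₀pos) hα
      rw [hA, div_lt_iff₀ (half_pos hl₀pos)] at hcase
      linarith
    · have h4 := log_sub_le hm hl₀pos hα
      have h5 := (Real.log_lt_iff_lt_exp hβ).2 hcase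
      have h6 : Real.log β - Real.log τ < (c - (m * Real.log (m / l₀) - m) - K₀) / n₂ := by
        linarith
      rw [lt_div_iff₀ hn₂'] at h6
      linarith
    · have hlpos : 0 < l := hl₀pos.trans_le hl
      have h4 := log_sub_le hm hlpos hα
      rw [hB, div_lt_iff₀ htj] at hcase
      have h5 : L + Real.log (t i₀) < Real.log (u τ β (t j)) := by
        rw [Real.lt_log_iff_exp_lt (u_pos hτ hβ (h.2.2.2 j hj').1.le)]
        unfold u
        linarith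
      have h6 : L < l := by linarith
      have h7 : Real.log (m / l) < (c + m - K) / m := by
        rw [Real.log_lt_iff_lt_exp (div_pos hm hlpos), div_lt_iff₀ hlpos]
        rw [hL, div_lt_iff₀ (Real.exp_pos _)] at h6
        linarith
      rw [lt_div_iff₀ hm] at h7
      linarith
  have hapos : 0 < min a 1 := lt_min (Real.exp_pos _) one_pos
  have hbpos : 0 < min b 1 := lt_min (Real.exp_pos _) one_pos
  have hcomp : IsCompact (Set.Icc (min a 1) (max A 1) ×ˢ Set.Icc (min b 1) (max B 1)) :=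
    isCompact_Icc.prod isCompact_Icc
  have hone : ((1 : ℝ), (1 : ℝ)) ∈ Set.Icc (min a 1) (max A 1) ×ˢ Set.Icc (min b 1) (max B 1) :=
    ⟨⟨min_le_right _ _, le_max_right _ _⟩, ⟨min_le_right _ _, le_max_right _ _⟩⟩
  have hsub : Set.Icc (min a 1) (max A 1) ×ˢ Set.Icc (min b 1) (max B 1)
      ⊆ {z : ℝ × ℝ | 0 < z.1 ∧ 0 < z.2} :=
    fun z hz => ⟨hapos.trans_le hz.1.1, hbpos.trans_le hz.2.1⟩
  obtain ⟨z, hz, hmax⟩ := hcomp.exists_isMaxOn ⟨_, hone⟩
    ((continuousOn_prof h hτ hτη hn₂).mono hsub)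
  obtain ⟨θ, hθ, hθeq⟩ := exists_logLik_eq_prof h hτ hτη hn₂ (hsub hz).1 (hsub hz).2
  refine ⟨z.1, θ, z.2, (hsub hz).1, hθ, (hsub hz).2, fun α' θ' β' hα' hθ' hβ' => ?_⟩
  rw [hθeq]
  refine (logLik_le_prof h hτ hτη hn₂ hθ' hβ').trans ?_
  by_cases hin : (α', β') ∈ Set.Icc (min a 1) (max A 1) ×ˢ Set.Icc (min b 1) (max B 1)
  · exact hmax hin
  · refine (hout α' β' hα' hβ' ?_).le.trans (hmax hone)
    by_contra hcon
    simp only [not_or, not_lt] at hcon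
    exact hin ⟨⟨(min_le_left _ _).trans hcon.1, hcon.2.1.trans (le_max_left _ _)⟩,
      ⟨(min_le_left _ _).trans hcon.2.2.1, hcon.2.2.2.trans (le_max_left _ _)⟩⟩

/-- If the first failure happens exactly at the stress change, the likelihood is unbounded. -/
theorem unbounded_of_eq (h : Admissible n n₁ n₂ τ η t) (hτ : 0 < τ) (hτη : τ < η)
    (hn₁ : 0 < n₁) (hall : ∀ i : Fin (n₁ + n₂), i.val < n₁ → t i = τ) (M : ℝ) :
    ∃ α θ β : ℝ, 0 < α ∧ 0 < θ ∧ 0 < β ∧ M < logLik n n₁ n₂ τ η t α θ β := by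
  set S : ℝ := (η - τ) / τ with hS
  have hSpos : 0 < S := div_pos (sub_pos.2 hτη) hτ
  set C : ℝ := ((n₁ : ℝ) + n₂) * Real.log τ + n * Real.exp S with hC
  set k : ℝ := max 1 (Real.exp (M + C) + 1) with hk
  have hk1 : 1 ≤ k := le_max_left _ _
  have hkpos : 0 < k := by linarith
  have hlogk : M + C < Real.log k := by
    rw [Real.lt_log_iff_exp_lt hkpos]
    have : Real.exp (M + C) + 1 ≤ k := le_max_right _ _
    linarith
  have hlogk0 : 0 ≤ Real.log k := Real.log_nonneg hk1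
  have hβ : 0 < k⁻¹ := inv_pos.2 hkpos
  refine ⟨k, τ, k⁻¹, hkpos, hτ, hβ, ?_⟩
  have hx : ∀ i, τ ≤ x n₁ n₂ τ t k⁻¹ i := by
    intro i
    unfold x
    split_ifs with hi
    · exact (hall i hi).ge
    · exact u_ge hβ (h.2.2.2 i (not_lt.1 hi)).1.le
  have h1 : ∑ _i : Fin (n₁ + n₂), Real.log τ ≤ ∑ i, Real.log (x n₁ n₂ τ t k⁻¹ i) :=
    Finset.sum_le_sum fun i _ => Real.log_le_log hτ (hx i)
  simp only [Finset.sum_const, Finset.card_univ, Fintype.card_fin, nsmul_eq_mul] at h1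
  push_cast at h1
  have h2 := mul_le_mul_of_nonneg_left h1 (sub_nonneg.2 hk1)
  have h3 : τ ^ (-k) * Q n n₁ n₂ τ η t k k⁻¹ ≤ n * Real.exp S := by
    have h4 := Q_le h hτ hτη hβ hkpos.le
    have h5 : u τ k⁻¹ η ≤ τ * Real.exp (S / k) := by
      have h6 : u τ k⁻¹ η = τ * (S / k + 1) := by
        unfold u
        rw [hS]
        field_simp
        ring
      rw [h6]
      exact mul_le_mul_of_nonneg_left (Real.add_one_le_exp _) hτ.le
    have h7 : u τ k⁻¹ η ^ k ≤ (τ * Real.exp (S / k)) ^ k :=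
      Real.rpow_le_rpow (u_pos hτ hβ hτη.le).le h5 hkpos.le
    rw [Real.mul_rpow hτ.le (Real.exp_pos _).le, ← Real.exp_mul, div_mul_cancel₀ _ hkpos.ne'] at h7
    have h8 : 0 < τ ^ k := Real.rpow_pos_of_pos hτ _
    rw [Real.rpow_neg hτ.le, inv_mul_le_iff₀ h8]
    have h9 := mul_le_mul_of_nonneg_left h7 (Nat.cast_nonneg (α := ℝ) n)
    linarith
  have h10 : Real.log k ≤ n₁ * Real.log k := by
    have : (1 : ℝ) ≤ n₁ := by exact_mod_cast hn₁
    nlinarith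
  rw [logLik_eq, Real.log_inv]
  nlinarith

end

end Pool.Agent.MP_1bbe3d_pr
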